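import Pool.Agent.Helper64.IG.Goals

/-! Packet GB: a Groebner basis argument. -/

open scoped BigOperators MonomialOrder

universe u

namespace Pool.Agent.Helper64.IG.PkGB

open MvPolynomial

section order

variable {V : Type} [Fintype V]

/-- The lexicographic order of the variables. -/
noncomputable abbrev ordV (n : ℕ) (V : Type) [Fintype V] : LinearOrder (Fin n × V) :=
  LinearOrder.lift' (fun x : Fin n × V => toLex (x.1, Fintype.equivFin V x.2))
    (fun x y h => by
      have h1 := toLex.injective h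
      have h2 := congrArg Prod.fst h1
      have h3 := congrArg Prod.snd h1
      exact Prod.ext h2 ((Fintype.equivFin V).injective h3))

theorem ordV_lt {n : ℕ} (x y : Fin n × V) :
    (ordV n V).lt x y ↔ x.1 < y.1 ∨ (x.1 = y.1 ∧ Fintype.equivFin V x.2 < Fintype.equivFin V y.2) :=
  Prod.Lex.toLex_lt_toLex

/-- The monomial order. -/
noncomputable def mo (n : ℕ) (V : Type) [Fintype V] : MonomialOrder (Fin n × V) :=
  letI := ordV n V
  MonomialOrder.lex

theorem mo_lt {n : ℕ} (c d : Fin n × V →₀ ℕ) : c ≺[mo n V] d ↔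
    ∃ i, (∀ j, (ordV n V).lt j i → c j = d j) ∧ c i < d i :=
  Iff.rfl

theorem map_lt {n n' : ℕ} {φ : Fin n → Fin n'} (hφ : StrictMono φ) {c d : Fin n × V →₀ ℕ}
    (h : c ≺[mo n V] d) :
    c.mapDomain (Prod.map φ id) ≺[mo n' V] d.mapDomain (Prod.map φ id) := by
  classical
  have hinj : Function.Injective (Prod.map φ (id : V → V)) :=
    hφ.injective.prodMap Function.injective_id
  rw [mo_lt] at h ⊢
  obtain ⟨i, h1, h2⟩ := h
  refine ⟨Prod.map φ id i, fun j hj => ?_, ?_⟩
  · by_cases hr : j ∈ Set.range (Prod.map φ (id : V → V))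
    · obtain ⟨j', rfl⟩ := hr
      rw [Finsupp.mapDomain_apply hinj, Finsupp.mapDomain_apply hinj]
      refine h1 j' ?_
      rw [ordV_lt] at hj ⊢
      simp only [Prod.map_fst, Prod.map_snd, id] at hj
      rcases hj with hj | ⟨hj, hj2⟩
      · exact Or.inl (hφ.lt_iff_lt.1 hj)
      · exact Or.inr ⟨hφ.injective hj, hj2⟩
    · rw [Finsupp.mapDomain_of_notMem_range _ _ hr, Finsupp.mapDomain_of_notMem_range _ _ hr]
  · rw [Finsupp.mapDomain_apply hinj, Finsupp.mapDomain_apply hinj]
    exact h2

theorem map_le {n n' : ℕ} {φ : Fin n → Fin n'} (hφ : StrictMono φ) {c d : Fin n × V →₀ ℕ}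
    (h : c ≼[mo n V] d) :
    c.mapDomain (Prod.map φ id) ≼[mo n' V] d.mapDomain (Prod.map φ id) := by
  rcases h.lt_or_eq with h | h
  · exact (map_lt hφ h).le
  · rw [(mo n V).toSyn.injective h]

theorem degree_rename {K : Type u} [Field K] {n n' : ℕ} {φ : Fin n → Fin n'} (hφ : StrictMono φ)
    (f : MvPolynomial (Fin n × V) K) :
    (mo n' V).degree (rename (Prod.map φ id) f) ≼[mo n' V]
      ((mo n V).degree f).mapDomain (Prod.map φ id) := by
  classical
  have hinj : Function.Injective (Prod.map φ (id : V → V)) :=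
    hφ.injective.prodMap Function.injective_id
  rw [MonomialOrder.degree_le_iff]
  intro c hc
  rw [support_rename_of_injective hinj, Finset.mem_image] at hc
  obtain ⟨d, hd, rfl⟩ := hc
  exact map_le hφ ((mo n V).le_degree hd)

end order

/-- Cancellation of the leading terms. -/
theorem cancel {K : Type u} [Field K] {σ : Type} (m : MonomialOrder σ) (f h : MvPolynomial σ K)
    (E : σ →₀ ℕ) (hh : m.degree h ≼[m] E) (hE : coeff E h ≠ 0) (hle : E ≤ m.degree f)
    (hg : f - monomial (m.degree f - E) (coeff (m.degree f) f / coeff E h) * h ≠ 0) :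
    m.degree (f - monomial (m.degree f - E) (coeff (m.degree f) f / coeff E h) * h) ≺[m]
      m.degree f := by
  classical
  set D := m.degree f with hD
  set c : K := coeff D f / coeff E h with hc
  have hsum : (D - E) + E = D := tsub_add_cancel_of_le hle
  have h1 : m.degree (monomial (D - E) c * h) ≼[m] D := by
    refine m.degree_mul_le.trans ?_
    calc m.toSyn (m.degree (monomial (D - E) c) + m.degree h)
        = m.toSyn (m.degree (monomial (D - E) c)) + m.toSyn (m.degree h) := map_add _ _ _
      _ ≤ m.toSyn (D - E) + m.toSyn E := add_le_add (m.degree_monomial_le c) hh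
      _ = m.toSyn D := by rw [← map_add, hsum]
  have h2 : m.degree (f - monomial (D - E) c * h) ≼[m] D :=
    m.degree_sub_le.trans (sup_le le_rfl h1)
  have h3 : coeff D (f - monomial (D - E) c * h) = 0 := by
    have h4 : coeff D (monomial (D - E) c * h) = c * coeff E h := by
      have := coeff_monomial_mul E (D - E) c h
      rwa [hsum] at this
    rw [coeff_sub, h4, hc, div_mul_cancel₀ _ hE, sub_self]
  refine lt_of_le_of_ne h2 fun heq => ?_
  have h5 : m.degree (f - monomial (D - E) c * h) = D := m.toSyn.injective heq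
  have h6 := m.coeff_degree_ne_zero_iff.2 hg
  rw [h5] at h6
  exact h6 h3

theorem gb : G_GB.{u} := by
  classical
  intro K _ S V _ N Hm hmono hwqo I hI hst
  by_contra hcon
  push Not at hcon
  have hI' : ∀ σ, Monotone (fun j => I j σ) := fun σ => monotone_nat_of_le_succ fun j => hI j σ
  choose nx hnx sx hsx using hcon
  -- the sequences
  let J : ℕ → ℕ := fun i => Nat.rec 0 (fun _ a => nx a) i
  have hJ : ∀ i, J (i + 1) = nx (J i) := fun i => rfl
  have hJm : Monotone J := monotone_nat_of_le_succ fun i => by rw [hJ]; exact hnx _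
  let s : ℕ → S := fun i => sx (J i)
  have hne : ∀ i, I (J (i + 1)) (s i) ≠ I (J i) (s i) := fun i => by
    rw [hJ]; exact hsx (J i)
  have hex : ∀ i, ({f | f ∈ I (J (i + 1)) (s i) ∧ f ∉ I (J i) (s i)} :
      Set (MvPolynomial (Fin (N (s i)) × V) K)).Nonempty := by
    intro i
    by_contra h
    apply hne i
    refine le_antisymm (fun f hf => ?_) (hI' (s i) (hJm (Nat.le_succ i)))
    by_contra hf2
    exact h ⟨f, hf, hf2⟩
  have hmin : ∀ i, ∃ f : MvPolynomial (Fin (N (s i)) × V) K,
      (f ∈ I (J (i + 1)) (s i) ∧ f ∉ I (J i) (s i)) ∧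
      ∀ g : MvPolynomial (Fin (N (s i)) × V) K, g ∈ I (J (i + 1)) (s i) → g ∉ I (J i) (s i) →
        ¬ ((mo (N (s i)) V).degree g ≺[mo (N (s i)) V] (mo (N (s i)) V).degree f) := by
    intro i
    have hwf : WellFounded (fun f g : MvPolynomial (Fin (N (s i)) × V) K =>
        (mo (N (s i)) V).degree f ≺[mo (N (s i)) V] (mo (N (s i)) V).degree g) :=
      InvImage.wf (fun f => (mo (N (s i)) V).toSyn ((mo (N (s i)) V).degree f)) wellFounded_lt
    refine ⟨hwf.min _ (hex i), hwf.min_mem _ (hex i), fun g h1 h2 => ?_⟩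
    have h3 : g ∈ ({f | f ∈ I (J (i + 1)) (s i) ∧ f ∉ I (J i) (s i)} :
      Set (MvPolynomial (Fin (N (s i)) × V) K)) := ⟨h1, h2⟩
    exact hwf.not_lt_min _ h3
  choose f hf hfmin using hmin
  obtain ⟨i, i', hii, φ, hφ, hle⟩ := hwqo s
    (fun i a v => (mo (N (s i)) V).degree (f i) (a, v))
  have hφm := hmono _ _ _ hφ
  have hinj : Function.Injective (Prod.map φ (id : V → V)) :=
    hφm.injective.prodMap Function.injective_id
  set m := mo (N (s i)) V with hm
  set m' := mo (N (s i')) V with hm'
  set E : Fin (N (s i')) × V →₀ ℕ := (m.degree (f i)).mapDomain (Prod.map φ id) with hEdef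
  have hfi0 : f i ≠ 0 := by
    intro h0
    exact (hf i).2 (by rw [h0]; exact Ideal.zero_mem _)
  have hE : coeff E (rename (Prod.map φ id) (f i)) ≠ 0 := by
    rw [hEdef, coeff_rename_mapDomain _ hinj]
    exact m.coeff_degree_ne_zero_iff.2 hfi0
  have hEle : E ≤ m'.degree (f i') := by
    intro x
    by_cases hr : x ∈ Set.range (Prod.map φ (id : V → V))
    · obtain ⟨⟨a, v⟩, rfl⟩ := hr
      rw [hEdef, Finsupp.mapDomain_apply hinj]
      exact hle a v
    · rw [hEdef, Finsupp.mapDomain_of_notMem_range _ _ hr]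
      exact Nat.zero_le _
  have hren : rename (Prod.map φ id) (f i) ∈ I (J i') (s i') := by
    refine hst _ _ _ _ hφ _ ?_
    exact hI' (s i) (hJm hii) (hf i).1
  set g := f i' - monomial (m'.degree (f i') - E)
    (coeff (m'.degree (f i')) (f i') / coeff E (rename (Prod.map φ id) (f i))) *
      rename (Prod.map φ id) (f i) with hg
  have hmul : monomial (m'.degree (f i') - E)
    (coeff (m'.degree (f i')) (f i') / coeff E (rename (Prod.map φ id) (f i))) *
      rename (Prod.map φ id) (f i) ∈ I (J i') (s i') := Ideal.mul_mem_left _ _ hren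
  have hg1 : g ∈ I (J (i' + 1)) (s i') :=
    Ideal.sub_mem _ (hf i').1 (hI' (s i') (hJm (Nat.le_succ i')) hmul)
  have hg2 : g ∉ I (J i') (s i') := by
    intro h
    apply (hf i').2
    have := Ideal.add_mem _ h hmul
    rwa [hg, sub_add_cancel] at this
  have hg0 : g ≠ 0 := fun h0 => hg2 (by rw [h0]; exact Ideal.zero_mem _)
  exact hfmin i' g hg1 hg2 (cancel m' (f i') (rename (Prod.map φ id) (f i)) E
    (degree_rename hφm (f i)) hE hEle hg0)

end Pool.Agent.Helper64.IG.PkGB
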